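import Pool.Agent.Lib.MP_1beec2_gt.Fin1

/-!
Closed arithmetic hyperbolic 4-manifolds with a finitely presented nonseparable subgroup in the
fundamental group (question Q1 of MP_1beec2_gt, answer yes).
-/

namespace Pool.Agent.Results.MP_1beec2_gt.NonseparableFP

open NSep

/-- There is a torsion-free group of isometries of hyperbolic 4-space which is commensurable with
the arithmetic group O'(f, Z[phi]) and acts properly discontinuously and cocompactly, and every
such group has a finitely presented subgroup which is not separable. -/
theorem result :
    (∃ Γ : Subgroup (GL (Fin 5) ℝ), IsClosedArith Γ) ∧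
    ∀ Γ : Subgroup (GL (Fin 5) ℝ), IsClosedArith Γ →
      ∃ H : Subgroup Γ, Group.IsFinitelyPresented H ∧ ¬ IsSeparable H :=
  NSep.final

end Pool.Agent.Results.MP_1beec2_gt.NonseparableFP
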